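import Pool.Agent.H.MP_72200a_co.F

open Filter Topology

namespace Pool.Agent.Results.MP_72200a_co.Asym

/-- Boolean matrix product, max over k of min (A i k) (B k j), with false < true -/
noncomputable def bmul {n : ℕ} (A B : Fin n → Fin n → Bool) : Fin n → Fin n → Bool :=
  fun i j => Finset.univ.sup (fun k => min (A i k) (B k j))

/-- number of regular n by n Boolean matrices -/
noncomputable def r (n : ℕ) : ℕ :=
  Set.ncard {A : Fin n → Fin n → Bool | ∃ X : Fin n → Fin n → Bool, bmul (bmul A X) A = A}

noncomputable def f (n : ℕ) : ℝ :=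
  ∑ k ∈ Finset.range (n + 1),
    ((n.factorial : ℝ) / (n - k).factorial) ^ 2 / k.factorial * 4 ^ (k * (n - k))

open Pool.Agent.H.MP_72200a_co

lemma bmul_true {n : ℕ} (A B : Fin n → Fin n → Bool) (i j : Fin n) :
    bmul A B i j = true ↔ ∃ k, A i k = true ∧ B k j = true := by
  have h : ∀ b : Bool, b = true ↔ false < b := by decide
  have h2 : ∀ a b : Bool, false < min a b ↔ a = true ∧ b = true := by decide
  rw [h, bmul]
  refine (Finset.lt_sup_iff (α := Bool)).trans ?_
  simp only [Finset.mem_univ, true_and]
  exact exists_congr (fun k => h2 _ _)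

theorem result : Tendsto (fun n => (r n : ℝ) / f n) atTop (𝓝 1) := by
  refine main.congr (fun n => ?_)
  congr 1
  · unfold r Pool.Agent.H.MP_e84969_co.cnt
    congr 2
    ext A
    refine exists_congr (fun X => ?_)
    have key : ∀ i j, bmul (bmul A X) A i j = true ↔
        ∃ s t, A i s = true ∧ X s t = true ∧ A t j = true := by
      intro i j
      simp only [bmul_true]
      exact ⟨fun ⟨t, ⟨s, a, b⟩, c⟩ => ⟨s, t, a, b, c⟩, fun ⟨s, t, a, b, c⟩ => ⟨t, ⟨s, a, b⟩, c⟩⟩
    constructor
    · intro h; funext i j; exact Bool.eq_iff_iff.2 ((key i j).trans (h i j).symm)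
    · intro h i j; rw [← key, h]
  · refine Finset.sum_congr rfl (fun k hk => ?_)
    have hk' : k ≤ n := by simp at hk; omega
    have h1 : ((n - k).factorial : ℝ) * n.descFactorial k = n.factorial := by
      exact_mod_cast Nat.factorial_mul_descFactorial hk'
    have h2 : (n.descFactorial k : ℝ) = k.factorial * n.choose k := by
      exact_mod_cast Nat.descFactorial_eq_factorial_mul_choose n k
    have h3 : ((n - k).factorial : ℝ) ≠ 0 := by positivity
    have h4 : (k.factorial : ℝ) ≠ 0 := by positivity
    rw [← h1, h2]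
    field_simp

end Pool.Agent.Results.MP_72200a_co.Asym
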